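import Pool.Agent.Helper97.Hilb8.L.KDefs
import Pool.Agent.Helper97.Hilb8.K.B.DerChk
import Pool.Agent.Helper97.Hilb8.L.B.CertTab
import Pool.Agent.Helper97.Hilb8.L.B.DerTab

/-! Checks. -/

set_option linter.all false
set_option maxRecDepth 1000000
set_option maxHeartbeats 0

noncomputable section

namespace Pool.Agent.Helper97.Hilb8.K.B

/-- Generators with `f`. -/
def mE2 : Tr := .node mE 9999 0 f0k .leaf

theorem md1 : goodT 141112949986000769314354982394685249377623834251174995898436813316771161238669414401516979093504000 88 mD1 = true := by decide +kernel

theorem md2 : chkJ2 141112949986000769314354982394685249377623834251174995898436813316771161238669414401516979093504000 mE mD1 mJ1 0 = true := by decide +kernel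

theorem md3 : goodT 141112949986000769314354982394685249377623834251174995898436813316771161238669414401516979093504000 265 mD2 = true := by decide +kernel

theorem md4 : chkJ2 141112949986000769314354982394685249377623834251174995898436813316771161238669414401516979093504000 mE2 mD2 mJ2 0 = true := by decide +kernel

theorem md5 : chkT2 141112949986000769314354982394685249377623834251174995898436813316771161238669414401516979093504000 mD2 265 T mT2 0 = true := by decide +kernel

theorem ma1 : chkA2 141112949986000769314354982394685249377623834251174995898436813316771161238669414401516979093504000 VP JV V0 io f0k mD1 88 mT1 0 = true := by decide +kernel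

end Pool.Agent.Helper97.Hilb8.K.B
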