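import Pool.Agent.Helper97.Hilb8.L.KDefs
import Pool.Agent.Helper97.Hilb8.K.B.Tab
import Pool.Agent.Helper97.Hilb8.K.B.RelTab

/-! Checks. -/

set_option linter.all false
set_option maxRecDepth 1000000
set_option maxHeartbeats 0

noncomputable section

namespace Pool.Agent.Helper97.Hilb8.K.B

theorem mt6 : elimsU 59 273406340597876490546562778389702670669146178861651554553221325801244124899921990402939142832914432 264586781223751442464415591990034842583044689220953117309569024968945927322505152002844331773788160 327 32 R Y = true := by decide +kernel

end Pool.Agent.Helper97.Hilb8.K.B
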