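import Pool.Agent.Helper97.Hilb8.L.KDefs
import Pool.Agent.Helper97.Hilb8.K.B.RawTab
import Pool.Agent.Helper97.Hilb8.K.B.ComTab
import Pool.Agent.Helper97.Hilb8.K.B.PtsTab
import Pool.Agent.Helper97.Hilb8.K.B.CertTab
import Pool.Agent.Helper97.Hilb8.L.B.CertTab

/-! Checks. -/

set_option linter.all false
set_option maxRecDepth 1000000
set_option maxHeartbeats 0

noncomputable section

namespace Pool.Agent.Helper97.Hilb8.K.B

theorem mc9 : chkVU 11120266659479813102275661708530068136306679655413532969550946363339110660129467379291653229725420539987469543450274054065820693933807928063675628026111021399440823822937862747970608904409902374164241114379161960448 21545516652742137885659094560277007014094191832363720128504958578969526904000843047377578132593002296225722240434905979752527594496752860623371529300590103961416596156942109074193054752294185849943217159105465548800 712 wr CT 141112949986000769314354982394685249377623834251174995898436813316771161238669414401516979093504000 VP ve (maskI io) = true := by decide +kernel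

theorem mc10 : goodT 141112949986000769314354982394685249377623834251174995898436813316771161238669414401516979093504000 131 mE = true := by decide +kernel

theorem mr0 : chkR2 11120266659479813102275661708530068136306679655413532969550946363339110660129467379291653229725420539987469543450274054065820693933807928063675628026111021399440823822937862747970608904409902374164241114379161960448 712 wr CT 141112949986000769314354982394685249377623834251174995898436813316771161238669414401516979093504000 VP mE RL0 0 = true := by decide +kernel

theorem mr1 : chkR2 11120266659479813102275661708530068136306679655413532969550946363339110660129467379291653229725420539987469543450274054065820693933807928063675628026111021399440823822937862747970608904409902374164241114379161960448 712 wr CT 141112949986000769314354982394685249377623834251174995898436813316771161238669414401516979093504000 VP mE RL1 94 = true := by decide +kernel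

theorem mr2 : chkR2 11120266659479813102275661708530068136306679655413532969550946363339110660129467379291653229725420539987469543450274054065820693933807928063675628026111021399440823822937862747970608904409902374164241114379161960448 712 wr CT 141112949986000769314354982394685249377623834251174995898436813316771161238669414401516979093504000 VP mE RL2 108 = true := by decide +kernel

theorem mr3 : chkR2 11120266659479813102275661708530068136306679655413532969550946363339110660129467379291653229725420539987469543450274054065820693933807928063675628026111021399440823822937862747970608904409902374164241114379161960448 712 wr CT 141112949986000769314354982394685249377623834251174995898436813316771161238669414401516979093504000 VP mE RL3 114 = true := by decide +kernel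

theorem mr4 : chkR2 11120266659479813102275661708530068136306679655413532969550946363339110660129467379291653229725420539987469543450274054065820693933807928063675628026111021399440823822937862747970608904409902374164241114379161960448 712 wr CT 141112949986000769314354982394685249377623834251174995898436813316771161238669414401516979093504000 VP mE RL4 122 = true := by decide +kernel

theorem mr5 : chkR2 11120266659479813102275661708530068136306679655413532969550946363339110660129467379291653229725420539987469543450274054065820693933807928063675628026111021399440823822937862747970608904409902374164241114379161960448 712 wr CT 141112949986000769314354982394685249377623834251174995898436813316771161238669414401516979093504000 VP mE mRL 127 = true := by decide +kernel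

end Pool.Agent.Helper97.Hilb8.K.B
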