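import Pool.Agent.Helper97.Hilb8.L.OKDefs
import Pool.Agent.Helper97.Hilb8.K.B.OK
import Pool.Agent.Helper97.Hilb8.L.B.RawChk
import Pool.Agent.Helper97.Hilb8.L.B.DerChk
import Pool.Agent.Helper97.Hilb8.L.B.ThChk
import Pool.Agent.Helper97.Hilb8.L.B.ElChk
import Pool.Agent.Helper97.Hilb8.L.B.Chk0
import Pool.Agent.Helper97.Hilb8.L.B.Chk1

/-! Data and checks of the chart in characteristic 2. -/

set_option linter.all false
set_option maxRecDepth 1000000
set_option maxHeartbeats 0

noncomputable section

namespace Pool.Agent.Helper97.Hilb8.K.B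

/-- The data for characteristic 2. -/
def data2 : Data2 where
  NE := 131
  gE := mE
  ND := 88
  gD := mD1
  ND2 := 265
  D2 := mD2
  tA := mT1

theorem mlenR : mRL.len = 4 := by decide +kernel

theorem mlenJ1 : mJ1.len = 88 := by decide +kernel

theorem mlenJ2 : mJ2.len = 265 := by decide +kernel

theorem mlenT2 : mT2.len = 255 := by decide +kernel

theorem mhtA : mT1.len = C.n := by decide +kernel

theorem mhR : ∀ i < data2.NE, ∃ l i0, i0 ≤ i ∧ i < i0 + l.len ∧ chkR2 data.G data.sh data.wr data.cT data.cK.G data.VP data2.gE l i0 = true := by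
  intro i hi
  have hi' : i < 131 := hi
  by_cases h0 : i < 94
  · exact ⟨RL0, 0, by omega, by rw [lenR0]; omega, mr0⟩
  by_cases h1 : i < 108
  · exact ⟨RL1, 94, by omega, by rw [lenR1]; omega, mr1⟩
  by_cases h2 : i < 114
  · exact ⟨RL2, 108, by omega, by rw [lenR2]; omega, mr2⟩
  by_cases h3 : i < 122
  · exact ⟨RL3, 114, by omega, by rw [lenR3]; omega, mr3⟩
  by_cases h4 : i < 127
  · exact ⟨RL4, 122, by omega, by rw [lenR4]; omega, mr4⟩
  exact ⟨mRL, 127, by omega, by rw [mlenR]; omega, mr5⟩

theorem mhJ : ∀ i < data2.ND, ∃ l i0, i0 ≤ i ∧ i < i0 + l.len ∧ chkJ2 data.cK.G data2.gE data2.gD l i0 = true := by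
  intro i hi
  have hi' : i < 88 := hi
  exact ⟨mJ1, 0, by omega, by rw [mlenJ1]; omega, md2⟩

theorem mhJ2 : ∀ i < data2.ND2, ∃ l i0, i0 ≤ i ∧ i < i0 + l.len ∧ chkJ2 data.cK.G (data2.E2 data) data2.D2 l i0 = true := by
  intro i hi
  have hi' : i < 265 := hi
  exact ⟨mJ2, 0, by omega, by rw [mlenJ2]; omega, md4⟩

theorem mhT2 : ∀ i < data.N, ∃ l i0, i0 ≤ i ∧ i < i0 + l.len ∧
    chkT2 data.cK.G data2.D2 data2.ND2 data.tT l i0 = true := by
  intro i hi
  have hi' : i < 255 := hi
  exact ⟨mT2, 0, by omega, by rw [mlenT2]; omega, md5⟩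

theorem mnn806 : nodeOK (ruleU data.cK.G data.cK.LOW data.cK.sh data.tM data.tT data.tR data.tY) data.DC 806 (.c 105 (.c 1640 .e)) (.rul 0 0 0) = true := by decide +kernel

theorem mnn1613 : nodeOK (ruleU data.cK.G data.cK.LOW data.cK.sh data.tM data.tT data.tR data.tY) data.DC 1613 (.c 214 (.c 695 .e)) (.rul 2 0 0) = true := by decide +kernel

theorem mnn2420 : nodeOK (ruleU data.cK.G data.cK.LOW data.cK.sh data.tM data.tT data.tR data.tY) data.DC 2420 (.c 71 (.c 215 .e)) (.rul 3 29 0) = true := by decide +kernel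

theorem mnn2824 : nodeOK (ruleU data.cK.G data.cK.LOW data.cK.sh data.tM data.tT data.tR data.tY) data.DC 2824 (.c 99 (.c 127 (.c 781 (.c 1029 .e)))) (.rul 5 32 0) = true := by decide +kernel

theorem mnn3227 : nodeOK (ruleU data.cK.G data.cK.LOW data.cK.sh data.tM data.tT data.tR data.tY) data.DC 3227 (.c 2033 (.c 2037 (.c 2041 (.c 2045 (.c 2049 (.c 2052 (.c 2057 .e))))))) (.rul 5 194 1783156153379350471352271222602076046919841373751190826900997095130897087382782307032792704141002728457) = true := by decide +kernel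

theorem mnn3429 : nodeOK (ruleU data.cK.G data.cK.LOW data.cK.sh data.tM data.tT data.tR data.tY) data.DC 3429 (.c 1817 (.c 1813 (.c 1809 (.c 283 (.c 271 (.c 199 .e)))))) (.rup 52054574) = true := by decide +kernel

theorem mnn3631 : nodeOK (ruleU data.cK.G data.cK.LOW data.cK.sh data.tM data.tT data.tR data.tY) data.DC 3631 (.c 79 (.c 154 (.c 270 (.c 126 (.c 2738 (.c 1362 (.c 3090 (.c 3106 (.c 3030 (.c 3082 (.c 2730 (.c 2834 (.c 906 (.c 1189 (.c 74 (.c 170 .e)))))))))))))))) (.rup 262141362566107029699773821198322947381534618883083555819702019) = true := by decide +kernel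

theorem mnn3833 : nodeOK (ruleU data.cK.G data.cK.LOW data.cK.sh data.tM data.tT data.tR data.tY) data.DC 3833 (.c 1461 (.c 292 (.c 188 .e))) (.rup 11046304) = true := by decide +kernel

theorem mnn4034 : nodeOK (ruleU data.cK.G data.cK.LOW data.cK.sh data.tM data.tT data.tR data.tY) data.DC 4034 (.c 102 (.c 3302 (.c 3310 (.c 3202 (.c 3290 (.c 3230 (.c 3274 (.c 3314 (.c 998 (.c 3042 (.c 162 (.c 2918 (.c 3294 (.c 1338 (.c 270 (.c 2682 (.c 3298 (.c 170 .e)))))))))))))))))) (.rup 4313062300180552940296039377691110221244746907529961215665679927196) = true := by decide +kernel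

theorem mnn4135 : nodeOK (ruleU data.cK.G data.cK.LOW data.cK.sh data.tM data.tT data.tR data.tY) data.DC 4135 (.c 259 (.c 1338 (.c 269 (.c 105 (.c 74 (.c 169 .e)))))) (.rup 37887914846836439134932610430566213314962525918011107151848104263636859708540303601896886443142402336878749181397712918143542590816500340592060008222125330899831818641314821824828853075593510306089963315557462235020708904181528837226015051276142228861159170864892701247300168355877) = true := by decide +kernel

theorem mnn4236 : nodeOK (ruleU data.cK.G data.cK.LOW data.cK.sh data.tM data.tT data.tR data.tY) data.DC 4236 (.c 286 (.c 190 (.c 2862 (.c 98 (.c 2738 (.c 2830 (.c 2850 (.c 1658 (.c 2866 (.c 2802 (.c 1362 (.c 250 (.c 66 (.c 262 (.c 2842 (.c 1470 (.c 1394 (.c 2874 (.c 2846 (.c 2682 (.c 106 (.c 169 .e)))))))))))))))))))))) (.rup 16189855746654493255131159437595026521665750323816301054185) = true := by decide +kernel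

theorem mnn4337 : nodeOK (ruleU data.cK.G data.cK.LOW data.cK.sh data.tM data.tT data.tR data.tY) data.DC 4337 (.c 250 (.c 998 (.c 3802 (.c 3686 (.c 3746 (.c 3810 (.c 102 (.c 3758 (.c 3750 (.c 3814 (.c 1338 (.c 294 (.c 710 (.c 238 (.c 82 (.c 242 (.c 3426 (.c 3818 (.c 3822 .e))))))))))))))))))) (.rup 11606959631108296) = true := by decide +kernel

theorem mnn4438 : nodeOK (ruleU data.cK.G data.cK.LOW data.cK.sh data.tM data.tT data.tR data.tY) data.DC 4438 (.c 103 (.c 95 (.c 85 (.c 145 (.c 2670 (.c 1362 (.c 2838 (.c 293 (.c 294 (.c 270 (.c 66 (.c 283 (.c 2850 (.c 2738 (.c 2830 (.c 2802 (.c 262 (.c 2842 (.c 2758 (.c 1470 (.c 3594 (.c 3570 (.c 1394 (.c 2874 (.c 2846 (.c 3602 (.c 157 (.c 105 (.c 169 .e))))))))))))))))))))))))))))) (.rup 99567616694611399092558642542289888747004610607771577316098881309769995) = true := by decide +kernel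

theorem mnn4539 : nodeOK (ruleU data.cK.G data.cK.LOW data.cK.sh data.tM data.tT data.tR data.tY) data.DC 4539 (.c 292 (.c 220 (.c 64 (.c 104 (.c 260 .e))))) (.rup 188365060328306380589) = true := by decide +kernel

theorem mnn4640 : nodeOK (ruleU data.cK.G data.cK.LOW data.cK.sh data.tM data.tT data.tR data.tY) data.DC 4640 (.c 3403 (.c 271 (.c 2061 .e))) (.rup 866816182221) = true := by decide +kernel

theorem mnn4741 : nodeOK (ruleU data.cK.G data.cK.LOW data.cK.sh data.tM data.tT data.tR data.tY) data.DC 4741 (.c 154 (.c 218 (.c 3758 (.c 1138 (.c 2722 (.c 270 (.c 2609 (.c 189 (.c 149 (.c 150 (.c 221 (.c 294 (.c 127 (.c 250 (.c 104 (.c 92 (.c 909 (.c 86 (.c 82 (.c 78 (.c 74 (.c 69 (.c 66 .e))))))))))))))))))))))) (.rup 44616393777767694340395246030258003142997547161482379087477174479043948300906930614090872387585196405446245129040795536061527480917059792958853061143305884805551701049644278457885781316638700465249893526230124406198248828087446578283603358994474274201265878505864075908221465837951423138451457717743693148337650447720500711792575577526893341136397061830702515680049833334146939447321417737391506599808227267290711821825532911531160265033418031789951979007271329267073369534325702159288505268621936075108620614956664732)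 = true := by decide +kernel

theorem mnn4841 : nodeOK (ruleU data.cK.G data.cK.LOW data.cK.sh data.tM data.tT data.tR data.tY) data.DC 4841 (.c 82 (.c 190 (.c 251 (.c 3450 (.c 1106 (.c 1138 (.c 1393 (.c 1541 (.c 1993 (.c 150 (.c 222 (.c 162 (.c 168 (.c 2966 (.c 3026 (.c 127 (.c 286 (.c 78 (.c 73 (.c 70 (.c 66 .e))))))))))))))))))))) (.rup 26509322102422804980976264212605650683302912660799319359503301487749207428045572806818637482847569880088698011672024746382) = true := by decide +kernel

theorem mnn4942 : nodeOK (ruleU data.cK.G data.cK.LOW data.cK.sh data.tM data.tT data.tR data.tY) data.DC 4942 (.c 219 (.c 198 (.c 190 (.c 1138 (.c 1413 (.c 222 (.c 1417 (.c 1421 (.c 78 (.c 2938 (.c 102 (.c 150 (.c 601 (.c 1409 (.c 3374 (.c 3230 (.c 2974 (.c 82 (.c 127 (.c 270 (.c 3842 (.c 1405 (.c 73 (.c 70 (.c 66 .e))))))))))))))))))))))))) (.rup 460589721201330748152070923643454615141979572567102703538734762) = true := by decide +kernel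

theorem mnn5043 : nodeOK (ruleU data.cK.G data.cK.LOW data.cK.sh data.tM data.tT data.tR data.tY) data.DC 5043 (.c 105 (.c 106 (.c 82 (.c 154 (.c 286 (.c 78 (.c 270 (.c 73 (.c 69 (.c 65 .e)))))))))) (.rup 3874241476987038106972355097047525627764272052529635429939697422972671356663736766482320687938555430558997485210141005141247792429971901289860547748088941275950127471304934908838972759811333978430206854740260832059214410833793596896107019961368680715180312357281964363782974611801402805116863145310698061545553171874461187491220342428115353172826822062720883963835655556335014665832794615781514354979385182573254374029506146596898056619423704036341204560311964281772356801671943933257079655919602600143915074808401863216246597580783680606092098277512595739) = true := by decide +kernel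

theorem mnn5144 : nodeOK (ruleU data.cK.G data.cK.LOW data.cK.sh data.tM data.tT data.tR data.tY) data.DC 5144 (.c 873 (.c 94 (.c 154 (.c 221 (.c 82 (.c 270 (.c 78 (.c 69 (.c 65 .e))))))))) (.rup 361205777586448840317845474329855698174414806528713874954511944790508958102432100705510842188653805560365899910693794890433093765511935927163266590167493460813872824023497518495842886562926592107829012708249740467605115584417683540289997713946587608857142708294) = true := by decide +kernel

theorem mnn5245 : nodeOK (ruleU data.cK.G data.cK.LOW data.cK.sh data.tM data.tT data.tR data.tY) data.DC 5245 (.c 238 (.c 250 (.c 94 (.c 2746 (.c 190 (.c 258 (.c 71 (.c 2854 (.c 2858 (.c 2842 (.c 1470 (.c 2846 (.c 2662 (.c 2658 (.c 150 (.c 214 (.c 2862 (.c 906 (.c 78 (.c 221 (.c 82 (.c 66 .e)))))))))))))))))))))) (.rup 26873163839956725900339136457938367962025527233456277267197995050129588539175855272664617915768434894848374816745066203366) = true := by decide +kernel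

theorem mnn5346 : nodeOK (ruleU data.cK.G data.cK.LOW data.cK.sh data.tM data.tT data.tR data.tY) data.DC 5346 (.c 197 (.c 102 (.c 94 (.c 150 (.c 189 (.c 74 (.c 70 (.c 78 (.c 82 (.c 65 .e)))))))))) (.rup 50239012263002391853658140421982337567814485281157336198699599496467903015509639413483766080291802467472879901584668429540353370429431922581491320952132629833689586545585437433396310391265053797982835963176820384058711442355434969437296077955875670368061518704595886622950308167485833879159546326238463129422875763223308253268733495523618411507878293800766024608617467190514605861240989700378140932673782070937334016364824217708566826788093734847615273863920475933910983039875068441934455918681460372537346434040860493406091694344152560833226557328309253128894) = true := by decide +kernel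

theorem mnn5447 : nodeOK (ruleU data.cK.G data.cK.LOW data.cK.sh data.tM data.tT data.tR data.tY) data.DC 5447 (.c 168 (.c 104 (.c 196 (.c 268 (.c 72 (.c 220 (.c 1601 .e))))))) (.rup 65860890119096268311256526249488493890999) = true := by decide +kernel

theorem mnn5548 : nodeOK (ruleU data.cK.G data.cK.LOW data.cK.sh data.tM data.tT data.tR data.tY) data.DC 5548 (.c 269 (.c 1292 (.c 1112 (.c 74 (.c 104 (.c 220 (.c 65 .e))))))) (.rup 68824940203919253156063859766291906839341) = true := by decide +kernel

theorem mnn5648 : nodeOK (ruleU data.cK.G data.cK.LOW data.cK.sh data.tM data.tT data.tR data.tY) data.DC 5648 (.c 78 (.c 82 (.c 65 .e))) (.rup 14225851963813021752080782867639958210366161845217060601071742575774805846415497048043236876246060096645868491447503204094980772238343940166546450745808100833327716749177745033143971845236707438846409494265857607145976230906706639145005845340052723580365241927200107792128804517993582675991561366992498938492777165558741480677697288253872319015809127568236017981856842826926315529929976552460113813921979069459674852836649971393045145827568027433348236673305355973629062164739052915328538890326043294297373794758996083649632874625789067597164780807975565322230050397945754216990949989922992810559156729425453627732446920163889994028510439011666051595764810865749393088296501492211854579337535896629798676287806997536843301431653746064734967272639)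 = true := by decide +kernel

theorem mnn5749 : nodeOK (ruleU data.cK.G data.cK.LOW data.cK.sh data.tM data.tT data.tR data.tY) data.DC 5749 (.c 212 (.c 689 (.c 124 (.c 1289 (.c 105 .e))))) (.rup 906702975406370494412564030825053788475889233327278873097892594976) = true := by decide +kernel

theorem mnn5850 : nodeOK (ruleU data.cK.G data.cK.LOW data.cK.sh data.tM data.tT data.tR data.tY) data.DC 5850 (.c 158 (.c 171 (.c 162 (.c 238 (.c 261 (.c 262 (.c 218 (.c 905 (.c 99 (.c 3154 (.c 3162 (.c 3126 (.c 3134 (.c 1246 (.c 1250 (.c 2918 (.c 3442 (.c 3158 (.c 166 (.c 66 (.c 3246 (.c 2678 (.c 2710 (.c 1502 (.c 2902 (.c 2670 (.c 150 (.c 214 (.c 3318 (.c 3650 (.c 3654 (.c 950 (.c 650 (.c 3646 (.c 3718 (.c 146 (.c 1861 (.c 82 (.c 270 (.c 189 (.c 74 .e))))))))))))))))))))))))))))))))))))))))) (.rup 141354090983012199140594026026001222104390880342632102463660922387124847082808279486614549306146106488835430299996384511597256062448996227688771424801497924880411202573675779803639435995533192793416308261650282289191870247712476507984537322451477873596021898244061656559989839024248426541825640910060358555057387493444953348548675802)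 = true := by decide +kernel

theorem mnn5951 : nodeOK (ruleU data.cK.G data.cK.LOW data.cK.sh data.tM data.tT data.tR data.tY) data.DC 5951 (.c 167 (.c 70 (.c 1213 (.c 66 (.c 250 (.c 190 (.c 238 (.c 86 (.c 154 (.c 258 (.c 145 (.c 689 (.c 150 (.c 146 (.c 214 (.c 270 (.c 221 (.c 127 (.c 82 (.c 188 .e)))))))))))))))))))) (.rup 46978157) = true := by decide +kernel

theorem mnn6052 : nodeOK (ruleU data.cK.G data.cK.LOW data.cK.sh data.tM data.tT data.tR data.tY) data.DC 6052 (.c 2767 .e) (.rup 26302354) = true := by decide +kernel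

theorem mnn6254 : nodeOK (ruleU data.cK.G data.cK.LOW data.cK.sh data.tM data.tT data.tR data.tY) data.DC 6254 (.c 3375 .e) (.rup 32462946) = true := by decide +kernel

theorem mhDC : chkC (ruleU data.cK.G data.cK.LOW data.cK.sh data.tM data.tT data.tR data.tY) D D = true :=
  ((chkC_node _ _ _ _ _ _ _).2 ⟨((chkC_node _ _ _ _ _ _ _).2 ⟨((chkC_node _ _ _ _ _ _ _).2 ⟨mchk0, mchk1, nl806, mnn806⟩), ((chkC_node _ _ _ _ _ _ _).2 ⟨mchk2, ((chkC_node _ _ _ _ _ _ _).2 ⟨mchk3, mchk4, nl2824, mnn2824⟩), nl2420, mnn2420⟩), nl1613, mnn1613⟩), ((chkC_node _ _ _ _ _ _ _).2 ⟨((chkC_node _ _ _ _ _ _ _).2 ⟨((chkC_node _ _ _ _ _ _ _).2 ⟨((chkC_node _ _ _ _ _ _ _).2 ⟨mchk5, mchk6, nl3429, mnn3429⟩), ((chkC_node _ _ _ _ _ _ _).2 ⟨mchk7, mchk8, nl3833, mnn3833⟩), nl3631, mnn3631⟩), ((chkC_node _ _ _ _ _ _ _).2 ⟨((chkC_node _ _ _ _ _ _ _).2 ⟨((chkC_node _ _ _ _ _ _ _).2 ⟨mchk9, mchk10, nl4135, mnn4135⟩), ((chkC_node _ _ _ _ _ _ _).2 ⟨mchk11, mchk12, nl4337, mnn4337⟩), nl4236, mnn4236⟩), ((chkC_node _ _ _ _ _ _ _).2 ⟨((chkC_node _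 _ _ _ _ _ _).2 ⟨mchk13, mchk14, nl4539, mnn4539⟩), ((chkC_node _ _ _ _ _ _ _).2 ⟨mchk15, mchk16, nl4741, mnn4741⟩), nl4640, mnn4640⟩), nl4438, mnn4438⟩), nl4034, mnn4034⟩), ((chkC_node _ _ _ _ _ _ _).2 ⟨((chkC_node _ _ _ _ _ _ _).2 ⟨((chkC_node _ _ _ _ _ _ _).2 ⟨((chkC_node _ _ _ _ _ _ _).2 ⟨mchk17, mchk18, nl4942, mnn4942⟩), ((chkC_node _ _ _ _ _ _ _).2 ⟨mchk19, mchk20, nl5144, mnn5144⟩), nl5043, mnn5043⟩), ((chkC_node _ _ _ _ _ _ _).2 ⟨((chkC_node _ _ _ _ _ _ _).2 ⟨mchk21, mchk22, nl5346, mnn5346⟩), ((chkC_node _ _ _ _ _ _ _).2 ⟨mchk23, mchk24, nl5548, mnn5548⟩), nl5447, mnn5447⟩), nl5245, mnn5245⟩), ((chkC_node _ _ _ _ _ _ _).2 ⟨((chkC_node _ _ _ _ _ _ _).2 ⟨((chkC_node _ _ _ _ _ _ _).2 ⟨mchk25, mchk26, nl5749, mnn5749⟩), ((chkC_node _ _ _ _ _ _ _).2 ⟨mchk27, mchk28, nl5951, mnn5951⟩), nl5850, mnn5850⟩), ((chkC_node _ _ _ _ _ _ _).2 ⟨mchk29, mchk30, nl6254, mnn6254⟩), nl6052, mnn6052⟩), nl5648, mnn5648⟩), nl4841, mnn4841⟩), nl3227, mnn3227⟩)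

/-- The checks of the chart. -/
theorem ok2 : data.OK2 data2 chartB where
  hC := ok.hC
  hNX := ok.hNX
  hV := ok.hV
  hV' := ok.hV'
  hCT := ok.hCT
  hAll := ok.hAll
  hwr := ok.hwr
  hwT := ok.hwT
  hC' := ok.hC'
  hVP := ok.hVP
  hVg := ok.hVg
  hio := ok.hio
  hlen := ok.hlen
  hdist := ok.hdist
  hve := mc9
  hE := mc10
  hR := mhR
  hD := md1
  hJ := mhJ
  hf := ok.hf
  hf0 := ok.hf0
  hf0k := ok.hf0k
  hxi := ok.hxi
  hxk := ok.hxk
  hfc := ok.hfc
  hD2 := md3
  hJ2 := mhJ2
  hT2 := mhT2
  hwk := ok.hwk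
  hT := ok.hT
  hN := ok.hN
  hrows := ok.hrows
  hM := ok.hM
  hRel := ok.hRel
  hY := mt6
  hDC := mhDC
  hlast := ok.hlast
  hCD := ok.hCD
  hwD := ok.hwD
  hVT := ok.hVT
  hVTg := ok.hVTg
  hV0 := ok.hV0
  hV0g := ok.hV0g
  hz := ok.hz
  htV := ok.htV
  hmD := ok.hmD
  hs := mh8
  hjv := ok.hjv
  hjb := ok.hjb
  hJVp := ok.hJVp
  hJVg := ok.hJVg
  htA := mhtA
  hA := ma1
  hMO := ok.hMO
  hp1 := ok.hp1
  hp2 := ok.hp2
  hp3 := ok.hp3
  hp4 := ok.hp4
  hp5 := ok.hp5
  hp6 := ok.hp6
  hp7 := ok.hp7

end Pool.Agent.Helper97.Hilb8.K.B
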